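import Pool.Agent.Lib.SH.B_CSM
import Pool.Agent.Lib.SH.B_BRIDGE
import Pool.Agent.Lib.MP_9ccfb7_an.Surf

/-! Tools for the initial state: smooth extension, peak points, thin surfaces. -/

open Set Filter Topology Metric
open scoped ContDiff Manifold

noncomputable section

namespace Pool.Agent.INI

open Pool.Agent.Lib

abbrev E : Type := ℂ × ℂ

/-- smooth extension from a neighbourhood of a compact set -/
theorem exists_ext {N : ℂ → ℂ} {U Z : Set ℂ} (hU : IsOpen U) (hZ : IsCompact Z) (hs : Z ⊆ U)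
    (hN : ContDiffOn ℝ ∞ N U) : ∃ F : ℂ → ℂ, ContDiff ℝ ∞ F ∧ ∀ᶠ z in 𝓝ˢ Z, F z = N z := by
  obtain ⟨Z', a, b, c⟩ := exists_compact_between hZ hU hs
  obtain ⟨f, f1, f2, -⟩ := exists_contMDiffMap_one_nhds_of_subset_interior (n := ⊤) 𝓘(ℝ, ℂ)
    hZ.isClosed b
  have f3 : ContDiff ℝ ∞ fun z => (f z : ℂ) :=
    Complex.ofRealCLM.contDiff.comp f.contMDiff.contDiff
  refine ⟨U.indicator fun z => f z * N z, SH.CSM.one U Z' _ hU a.isClosed c
    (f3.contDiffOn.mul hN) fun z _ hz => by simp [f2 z hz], ?_⟩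
  filter_upwards [f1, hU.mem_nhdsSet.2 hs] with z h1 h2
  simp [indicator_of_mem h2, h1]

/-- a totally real point of a graph which contains `X` locally is a peak point -/
theorem peak {X : Set E} {f : ℂ → ℂ} {y : E} (hf : DifferentiableAt ℝ f y.1)
    (hb : SH.dbar f y.1 ≠ 0) (h0 : y.2 = f y.1) (hg : ∀ᶠ x in 𝓝 y, x ∈ X → x.2 = f x.1) :
    SH.Peak X y := by
  by_contra hp
  have h1 := hf.hasFDerivAt.isLittleO.def (c := ‖SH.dbar f y.1‖ / 4)
    (by have := norm_pos_iff.2 hb; positivity)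
  obtain ⟨r, hr, h2⟩ := nhds_basis_closedBall.eventually_iff.1 h1
  refine HULL.peak_graph (z := Prod.fst) (w := Prod.snd) analyticAt_fst analyticAt_snd
    (fun _ _ a b => Prod.ext a b) (f := f)
    (a := (fderiv ℝ f y.1 1 - Complex.I * fderiv ℝ f y.1 Complex.I) / 2) hb hr (fun t ht => ?_) h0 hg
    (SH.BRIDGE.noPeak_iff.2 hp)
  have := h2 (mem_closedBall_iff_norm.2 ht)
  rwa [HULL.lin_decomp] at this

open MP_9ccfb7_an in
/-- a thin part `S` of a totally real surface is enough -/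
theorem pc_thin {I : Type} [Finite I] {c : I → ℂ} {r R : I → ℝ} {F : I → ℂ → ℂ} {S A : Set E}
    (hF : ∀ i, ContDiff ℝ ∞ (F i)) (hS : IsCompact S) (hA : IsClosed A) (hh : A ⊆ HULL.hull S)
    (gap : ∀ i i', i ≠ i' → ∀ z ∈ ann (c i) (r i) (R i), z ∈ ann (c i') (r i') (R i') →
      F i z ≠ F i' z)
    (real : ∀ i, ∀ z ∈ ann (c i) (r i) (R i), (z, F i z) ∉ A → SH.dbar (F i) z ≠ 0)
    (h : HULL.hull S ⊆ surf c r R F ∪ A) : HULL.hull (A ∪ S) ⊆ A ∪ S := by
  intro y hy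
  have h1 : y ∈ HULL.hull S := HULL.hull_sub2 (union_subset hh (HULL.subset_hull2 S)) hy
  by_contra hn
  have h2 : y ∉ A := fun a => hn (Or.inl a)
  obtain ⟨i, hi⟩ := mem_iUnion.1 ((h h1).resolve_right h2)
  refine SH.BRIDGE.noPeak_iff.1 ((HULL.lm_hull hS).noPeak y h1 (mem_univ _) fun a => hn (Or.inr a))
    (peak ((hF i).differentiable (by simp) _) (real i _ hi.1 (by rw [← hi.2]; exact h2)) hi.2 ?_)
  have h3 : ∀ j, ∀ᶠ x in 𝓝 y, j ≠ i → x ∉ gr (F j) (ann (c j) (r j) (R j)) := fun j => by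
    by_cases e : j = i
    · exact Eventually.of_forall fun _ a => absurd e a
    · filter_upwards [(isCompact_gr (hF j).continuous
        (isCompact_ann _ _ _)).isClosed.isOpen_compl.mem_nhds
        (fun a => gap j i e _ a.1 hi.1 (a.2.symm.trans hi.2))] with x a _ using a
  filter_upwards [eventually_all.2 h3, hA.isOpen_compl.mem_nhds h2] with x a b hx
  obtain ⟨j, hj⟩ := mem_iUnion.1 ((h hx).resolve_right b)
  by_cases e : j = i
  · exact e ▸ hj.2
  · exact absurd hj (a j e)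

end Pool.Agent.INI
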